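import Mathlib

namespace Pool.Agent.Results.MP_8f98a9_co.Fibration

open Set Pointwise

variable {n : ℕ}

/-- A lattice point seen in real space. -/
def cast (z : Fin n → ℤ) : Fin n → ℝ := fun i => (z i : ℝ)

/-- The lattice polytope spanned by a finite set of lattice points. -/
def poly (V : Finset (Fin n → ℤ)) : Set (Fin n → ℝ) := convexHull ℝ (cast '' (V : Set (Fin n → ℤ)))

/-- The lattice points of a set. -/
def latt (S : Set (Fin n → ℝ)) : Set (Fin n → ℤ) := {z | cast z ∈ S}

def IntegrallyClosed (P : Set (Fin n → ℝ)) : Prop :=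
  ∀ r : ℕ, 1 ≤ r → latt P + latt ((r : ℝ) • P) = latt (((r : ℝ) + 1) • P)

/-- `u` and `v` are the two ends of an edge (the segment is a face of `P`). -/
def Adj (P : Set (Fin n → ℝ)) (u v : Fin n → ℝ) : Prop := u ≠ v ∧ IsExtreme ℝ P (segment ℝ u v)

/-- The cone generated by the differences `v - u`, `v` adjacent to `u`. -/
def cone (P : Set (Fin n → ℝ)) (u : Fin n → ℝ) : Set (Fin n → ℝ) :=
  PointedCone.hull ℝ {x | ∃ v, Adj P u v ∧ x = v - u}

/-- `w` is a primitive lattice vector spanning an extreme ray of `Q`. -/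
def RayGen (Q : Set (Fin n → ℝ)) (w : Fin n → ℤ) : Prop :=
  (∀ (m : ℕ) (w' : Fin n → ℤ), w = m • w' → m = 1) ∧
    IsExtreme ℝ Q {x | ∃ t : ℝ, 0 ≤ t ∧ x = t • cast w}

/-- `b` belongs to the Hilbert basis of the semigroup of lattice points of `Q`. -/
def Hilb (Q : Set (Fin n → ℝ)) (b : Fin n → ℤ) : Prop :=
  cast b ∈ Q ∧ b ≠ 0 ∧ ∀ x y, cast x ∈ Q → cast y ∈ Q → b = x + y → x = 0 ∨ y = 0

/-- The coefficient sums of the ways to write `z` with real coefficients `≥ 0` in the primitive
ray generators; `ht z` is the greatest element. -/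
def HtSet (Q : Set (Fin n → ℝ)) (z : Fin n → ℤ) : Set ℝ :=
  {t | ∃ a : (Fin n → ℤ) →₀ ℝ, (∀ w, 0 ≤ a w) ∧ (∀ w ∈ a.support, RayGen Q w) ∧
    (a.sum fun w c => c • cast w) = cast z ∧ t = a.sum fun _ c => c}

/-- The coefficient sums of the ways to write `z` with natural coefficients in the Hilbert
basis; `ord z` is the greatest element. -/
def OrdSet (Q : Set (Fin n → ℝ)) (z : Fin n → ℤ) : Set ℕ :=
  {t | ∃ a : (Fin n → ℤ) →₀ ℕ, (∀ w ∈ a.support, Hilb Q w) ∧
    (a.sum fun w c => c • w) = z ∧ t = a.sum fun _ c => c}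

abbrev M := Fin 3 → ℤ

def idot (F w : M) : ℤ := F 0 * w 0 + F 1 * w 1 + F 2 * w 2

def lin (F : M) : (Fin 3 → ℝ) →ₗ[ℝ] ℝ where
  toFun x := F 0 * x 0 + F 1 * x 1 + F 2 * x 2
  map_add' x y := by simp only [Pi.add_apply]; ring
  map_smul' t x := by simp only [Pi.smul_apply, smul_eq_mul, RingHom.id_apply]; ring

def ilin (F : M) : M →+ ℤ where
  toFun := idot F
  map_zero' := by simp [idot]
  map_add' x y := by simp only [idot, Pi.add_apply]; ring

lemma lin_cast (F w : M) : lin F (cast w) = (idot F w : ℝ) := by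
  simp [lin, cast, idot]

lemma cast_add (x y : M) : cast (x + y) = cast x + cast y := by ext i; simp [cast]

lemma cast_nsmul (m : ℕ) (x : M) : cast (m • x) = (m : ℝ) • cast x := by ext i; simp [cast]

lemma cast_inj {x y : M} (h : cast x = cast y) : x = y := by
  ext i; have := congrFun h i; simpa [cast] using this

lemma RayGen.mem {Q : Set (Fin 3 → ℝ)} {w : M} (h : RayGen Q w) : cast w ∈ Q ∧ w ≠ 0 :=
  ⟨h.2.subset ⟨1, zero_le_one, (one_smul _ _).symm⟩, fun h0 => by
    have := h.1 0 0 (by simp [h0]); omega⟩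

lemma piece (Q : Set (Fin 3 → ℝ)) (φ : M) (hpos : ∀ w : M, cast w ∈ Q → w ≠ 0 → 1 ≤ idot φ w)
    (p q r : M) (hp : RayGen Q p) (hq : RayGen Q q) (hr : RayGen Q r) (fp : idot φ p = 1)
    (fq : idot φ q = 1) (fr : idot φ r = 1) (i j k : ℕ) (z : M) (hz : z = i • p + j • q + k • r) :
    ∃ m : ℕ, IsGreatest (HtSet Q z) m ∧ IsGreatest (OrdSet Q z) m := by
  classical
  have hφ : idot φ z = ((i + j + k : ℕ) : ℤ) := by
    have : ilin φ z = i • ilin φ p + j • ilin φ q + k • ilin φ r := by
      rw [hz, map_add, map_add, map_nsmul, map_nsmul, map_nsmul]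
    change idot φ z = i • idot φ p + j • idot φ q + k • idot φ r at this
    rw [this, fp, fq, fr]; simp
  have hH : ∀ w, RayGen Q w → idot φ w = 1 → Hilb Q w := by
    intro w hw fw
    refine ⟨hw.mem.1, hw.mem.2, fun x y hx hy hxy => ?_⟩
    by_contra hne
    push Not at hne
    have h1 := hpos x hx hne.1
    have h2 := hpos y hy hne.2
    have h3 : idot φ w = idot φ x + idot φ y := by rw [hxy]; exact (ilin φ).map_add x y
    omega
  have hs : ∀ {R : Type} [AddCommMonoid R] (a b c : R) (w : M),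
      w ∈ (Finsupp.single p a + Finsupp.single q b + Finsupp.single r c).support →
      w = p ∨ w = q ∨ w = r := by
    intro R _ a b c w hw
    by_contra hne
    push Not at hne
    simp [Finsupp.single_apply, hne.1.symm, hne.2.1.symm, hne.2.2.symm] at hw
  refine ⟨i + j + k, ⟨⟨Finsupp.single p (i : ℝ) + Finsupp.single q (j : ℝ) +
    Finsupp.single r (k : ℝ), ?_, ?_, ?_, ?_⟩, ?_⟩,
    ⟨⟨Finsupp.single p i + Finsupp.single q j + Finsupp.single r k, ?_, ?_, ?_⟩, ?_⟩⟩
  · intro w
    simp only [Finsupp.add_apply, Finsupp.single_apply]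
    split_ifs <;> positivity
  · intro w hw
    rcases hs _ _ _ w hw with rfl | rfl | rfl <;> assumption
  · rw [Finsupp.sum_add_index' (by simp) (by intros; rw [add_smul]),
      Finsupp.sum_add_index' (by simp) (by intros; rw [add_smul])]
    simp [hz, cast_add, cast_nsmul, Finsupp.sum_single_index, -nsmul_eq_mul]
  · rw [Finsupp.sum_add_index' (by simp) (by simp), Finsupp.sum_add_index' (by simp) (by simp)]
    simp [Finsupp.sum_single_index]
  · rintro t ⟨a, h0, h1, h2, rfl⟩
    have h3 := congrArg (lin φ) h2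
    rw [lin_cast, hφ, map_finsuppSum] at h3
    rw [show (((i + j + k : ℕ) : ℝ)) = (((i + j + k : ℕ) : ℤ) : ℝ) by simp, ← h3]
    apply Finset.sum_le_sum
    intro w hw
    have h4 : (1 : ℝ) ≤ idot φ w := by exact_mod_cast hpos w (h1 w hw).mem.1 (h1 w hw).mem.2
    simp only [map_smul, lin_cast, smul_eq_mul]
    nlinarith [h0 w]
  · intro w hw
    rcases hs _ _ _ w hw with rfl | rfl | rfl <;> apply hH <;> assumption
  · rw [Finsupp.sum_add_index' (by simp) (by intros; rw [add_smul]),
      Finsupp.sum_add_index' (by simp) (by intros; rw [add_smul])]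
    simp [hz, Finsupp.sum_single_index, -nsmul_eq_mul]
  · rw [Finsupp.sum_add_index' (by simp) (by simp), Finsupp.sum_add_index' (by simp) (by simp)]
    simp [Finsupp.sum_single_index]
  · rintro t ⟨a, h1, h2, rfl⟩
    have h3 := congrArg (ilin φ) h2
    rw [map_finsuppSum] at h3
    change _ = idot φ z at h3
    rw [hφ] at h3
    have h5 : ((a.sum fun _ c => c : ℕ) : ℤ) ≤ ((i + j + k : ℕ) : ℤ) := by
      rw [← h3, Finsupp.sum, Nat.cast_sum]
      apply Finset.sum_le_sum
      intro w hw
      have h4 := hpos w (h1 w hw).1 (h1 w hw).2.1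
      beta_reduce
      rw [map_nsmul]
      change _ ≤ a w • idot φ w
      rw [nsmul_eq_mul]
      nlinarith [Int.natCast_nonneg (a w)]
    exact_mod_cast h5

lemma raygen (Q : Set (Fin 3 → ℝ)) (w φ : M) (fw : idot φ w = 1) (ψ : (Fin 3 → ℝ) →ₗ[ℝ] ℝ)
    (hsm : ∀ t : ℝ, 0 ≤ t → t • cast w ∈ Q) (h1 : ∀ x ∈ Q, 0 ≤ ψ x) (h2 : ψ (cast w) = 0)
    (h3 : ∀ x ∈ Q, ψ x = 0 → ∃ t : ℝ, 0 ≤ t ∧ x = t • cast w) : RayGen Q w := by
  refine ⟨fun m w' h => ?_, ⟨?_, ?_⟩⟩
  · have : idot φ w = m • idot φ w' := by rw [h]; exact map_nsmul (ilin φ) m w'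
    rw [fw, nsmul_eq_mul] at this
    have h5 := Int.eq_one_of_mul_eq_one_right (Int.natCast_nonneg m) this.symm
    exact_mod_cast h5
  · rintro x ⟨t, ht, rfl⟩; exact hsm t ht
  · rintro x hx y hy z ⟨t, ht, rfl⟩ ⟨a, b, ha, hb, -, hab⟩
    apply h3 x hx
    have h4 := congrArg ψ hab
    simp only [map_add, map_smul, smul_eq_mul, h2, mul_zero] at h4
    have := h1 x hx
    have := h1 y hy
    nlinarith [mul_nonneg ha.le (h1 x hx), mul_nonneg hb.le (h1 y hy)]

def Frame (a b c F G H : M) : Prop :=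
  (idot F a = 1 ∧ idot F b = 0 ∧ idot F c = 0) ∧ (idot G a = 0 ∧ idot G b = 1 ∧ idot G c = 0) ∧
  (idot H a = 0 ∧ idot H b = 0 ∧ idot H c = 1) ∧
  ∀ i j : Fin 3, a i * F j + b i * G j + c i * H j = if i = j then 1 else 0

instance (a b c F G H : M) : Decidable (Frame a b c F G H) := by unfold Frame; infer_instance

lemma Frame.real {a b c F G H : M} (h : Frame a b c F G H) (x : Fin 3 → ℝ) :
    x = lin F x • cast a + lin G x • cast b + lin H x • cast c := by
  ext i
  have e : ∀ j, (a i : ℝ) * F j + b i * G j + c i * H j = if i = j then 1 else 0 := fun j => by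
    have := congrArg (fun t : ℤ => (t : ℝ)) (h.2.2.2 i j)
    simpa using this
  have e0 := e 0
  have e1 := e 1
  have e2 := e 2
  simp only [lin, cast, Pi.add_apply, Pi.smul_apply, smul_eq_mul, LinearMap.coe_mk,
    AddHom.coe_mk]
  fin_cases i <;> simp at e0 e1 e2 ⊢ <;> linear_combination (-x 0) * e0 - x 1 * e1 - x 2 * e2

lemma Frame.int {a b c F G H : M} (h : Frame a b c F G H) (z : M) :
    z = idot F z • a + idot G z • b + idot H z • c := by
  apply cast_inj
  rw [h.real (cast z), lin_cast, lin_cast, lin_cast]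
  ext i; simp [cast]

lemma coneA {a b c F G H : M} (h : Frame a b c F G H) (Q : Set (Fin 3 → ℝ))
    (hQ : ∀ x, x ∈ Q ↔ 0 ≤ lin F x ∧ 0 ≤ lin G x ∧ 0 ≤ lin H x) (z : M) (hz : cast z ∈ Q) :
    ∃ m : ℕ, IsGreatest (HtSet Q z) m ∧ IsGreatest (OrdSet Q z) m := by
  obtain ⟨⟨a1, a2, a3⟩, ⟨b1, b2, b3⟩, ⟨c1, c2, c3⟩, -⟩ := id h
  have hφ : ∀ w, idot (F + G + H) w = idot F w + idot G w + idot H w := fun w => by
    simp only [idot, Pi.add_apply]; ring
  have hI : ∀ w : M, cast w ∈ Q → 0 ≤ idot F w ∧ 0 ≤ idot G w ∧ 0 ≤ idot H w := fun w hw => by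
    have := (hQ _).1 hw
    simp only [lin_cast] at this
    exact_mod_cast this
  obtain ⟨z1, z2, z3⟩ := hI z hz
  refine piece Q (F + G + H) (fun w hw h0 => ?_) a b c ?_ ?_ ?_ (by rw [hφ]; omega)
    (by rw [hφ]; omega) (by rw [hφ]; omega) (idot F z).toNat (idot G z).toNat (idot H z).toNat z ?_
  · have := hI w hw
    by_contra hlt
    apply h0
    rw [h.int w, show idot F w = 0 by rw [hφ] at hlt; omega,
      show idot G w = 0 by rw [hφ] at hlt; omega, show idot H w = 0 by rw [hφ] at hlt; omega]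
    simp
  · refine raygen Q a F a1 (lin G + lin H) (fun t ht => by simp [hQ, lin_cast, *])
      (fun x hx => by have := (hQ x).1 hx; simp; linarith) (by simp [lin_cast, *]) fun x hx h0 => ?_
    have := (hQ x).1 hx
    simp at h0
    refine ⟨lin F x, this.1, ?_⟩
    conv_lhs => rw [h.real x, show lin G x = 0 by linarith, show lin H x = 0 by linarith]
    simp
  · refine raygen Q b G b2 (lin F + lin H) (fun t ht => by simp [hQ, lin_cast, *])
      (fun x hx => by have := (hQ x).1 hx; simp; linarith) (by simp [lin_cast, *]) fun x hx h0 => ?_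
    have := (hQ x).1 hx
    simp at h0
    refine ⟨lin G x, this.2.1, ?_⟩
    conv_lhs => rw [h.real x, show lin F x = 0 by linarith, show lin H x = 0 by linarith]
    simp
  · refine raygen Q c H c3 (lin F + lin G) (fun t ht => by simp [hQ, lin_cast, *])
      (fun x hx => by have := (hQ x).1 hx; simp; linarith) (by simp [lin_cast, *]) fun x hx h0 => ?_
    have := (hQ x).1 hx
    simp at h0
    refine ⟨lin H x, this.2.2, ?_⟩
    conv_lhs => rw [h.real x, show lin F x = 0 by linarith, show lin G x = 0 by linarith]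
    simp
  · simp only [← natCast_zsmul, Int.toNat_of_nonneg, z1, z2, z3]
    exact h.int z

lemma coneB {a b c F G H : M} (h : Frame a b c F G H) (Q : Set (Fin 3 → ℝ))
    (hQ : ∀ x, x ∈ Q ↔ 0 ≤ lin G x ∧ 0 ≤ lin H x ∧ 0 ≤ lin F x + 4 * lin G x ∧
      0 ≤ lin F x + 4 * lin H x) (z : M) (hz : cast z ∈ Q) (hle : idot H z ≤ idot G z) :
    ∃ m : ℕ, IsGreatest (HtSet Q z) m ∧ IsGreatest (OrdSet Q z) m := by
  obtain ⟨⟨a1, a2, a3⟩, ⟨b1, b2, b3⟩, ⟨c1, c2, c3⟩, -⟩ := id h
  have hφ : ∀ w, idot (F + G + 4 • H) w = idot F w + idot G w + 4 * idot H w := fun w => by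
    simp [idot]; ring
  have hd : ∀ K, idot K (b + c - 4 • a) = idot K b + idot K c - 4 * idot K a := fun K => by
    simp [idot]; ring
  have d1 : idot F (b + c - 4 • a) = -4 := by rw [hd]; omega
  have d2 : idot G (b + c - 4 • a) = 1 := by rw [hd]; omega
  have d3 : idot H (b + c - 4 • a) = 1 := by rw [hd]; omega
  have hI : ∀ w : M, cast w ∈ Q → 0 ≤ idot G w ∧ 0 ≤ idot H w ∧ 0 ≤ idot F w + 4 * idot G w ∧
      0 ≤ idot F w + 4 * idot H w := fun w hw => by
    have := (hQ _).1 hw
    simp only [lin_cast] at this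
    exact_mod_cast this
  obtain ⟨z1, z2, z3, z4⟩ := hI z hz
  refine piece Q (F + G + 4 • H) (fun w hw h0 => ?_) a b (b + c - 4 • a) ?_ ?_ ?_
    (by rw [hφ]; omega) (by rw [hφ]; omega) (by rw [hφ]; omega)
    (idot F z + 4 * idot H z).toNat (idot G z - idot H z).toNat (idot H z).toNat z ?_
  · have := hI w hw
    by_contra hlt
    apply h0
    rw [h.int w, show idot F w = 0 by rw [hφ] at hlt; omega,
      show idot G w = 0 by rw [hφ] at hlt; omega, show idot H w = 0 by rw [hφ] at hlt; omega]
    simp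
  · refine raygen Q a F a1 (lin G + lin H) (fun t ht => by simp [hQ, lin_cast, *])
      (fun x hx => by have := (hQ x).1 hx; simp; linarith) (by simp [lin_cast, *]) fun x hx h0 => ?_
    have := (hQ x).1 hx
    simp at h0
    refine ⟨lin F x, by linarith, ?_⟩
    conv_lhs => rw [h.real x, show lin G x = 0 by linarith, show lin H x = 0 by linarith]
    simp
  · refine raygen Q b G b2 (lin F + (5 : ℝ) • lin H) (fun t ht => by simp [hQ, lin_cast, *])
      (fun x hx => by have := (hQ x).1 hx; simp; linarith) (by simp [lin_cast, *]) fun x hx h0 => ?_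
    have := (hQ x).1 hx
    simp at h0
    refine ⟨lin G x, this.1, ?_⟩
    conv_lhs => rw [h.real x, show lin F x = 0 by linarith, show lin H x = 0 by linarith]
    simp
  · refine raygen Q _ G d2 ((2 : ℝ) • lin F + (4 : ℝ) • lin G + (4 : ℝ) • lin H)
      (fun t ht => by
        rw [hQ]; simp only [map_smul, lin_cast, d1, d2, d3, smul_eq_mul]; push_cast
        refine ⟨by linarith, by linarith, by linarith, by linarith⟩)
      (fun x hx => by have := (hQ x).1 hx; simp; linarith)
      (by simp only [LinearMap.add_apply, LinearMap.smul_apply, lin_cast, d1, d2, d3]; norm_num)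
      fun x hx h0 => ?_
    have := (hQ x).1 hx
    simp at h0
    refine ⟨lin G x, this.1, ?_⟩
    conv_lhs => rw [h.real x, show lin F x = -4 * lin G x by linarith,
      show lin H x = lin G x by linarith]
    ext i; simp [cast]; ring
  · simp only [← natCast_zsmul, Int.toNat_of_nonneg z4, Int.toNat_of_nonneg z2,
      Int.toNat_of_nonneg (sub_nonneg.2 hle)]
    conv_lhs => rw [h.int z]
    ext i; simp; ring

def V : Finset M :=
  {![0, 0, 0], ![0, 0, 1], ![1, 0, 0], ![1, 0, 1], ![0, 1, 0], ![0, 1, 1], ![1, 1, 4], ![1, 1, 5]}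

lemma le_of_V (f : (Fin 3 → ℝ) →ₗ[ℝ] ℝ) (m : ℝ) (h : ∀ w ∈ V, f (cast w) ≤ m) :
    ∀ x ∈ poly V, f x ≤ m := by
  refine convexHull_min ?_ (convex_halfSpace_le f.isLinear m)
  rintro _ ⟨w, hw, rfl⟩; exact h w hw

lemma mem_poly {w : M} (hw : w ∈ V) : cast w ∈ poly V := subset_convexHull _ _ ⟨w, hw, rfl⟩

lemma adj (u v f : M) (hu : u ∈ V) (hv : v ∈ V) (huv : u ≠ v) (hf : idot f v = idot f u)
    (hV : ∀ w ∈ V, idot f w < idot f u ∨ w = u ∨ w = v) : Adj (poly V) (cast u) (cast v) := by
  refine ⟨fun h => huv (cast_inj h), ?_, ?_⟩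
  · exact (convex_convexHull ℝ _).segment_subset (mem_poly hu) (mem_poly hv)
  have hseg : ∀ x ∈ segment ℝ (cast u) (cast v), lin f x = idot f u := by
    rintro _ ⟨a, b, -, -, hab, rfl⟩
    simp only [map_add, map_smul, lin_cast, hf, smul_eq_mul]
    rw [← add_mul, hab, one_mul]
  have hT : poly V ⊆ {x | lin f x < idot f u ∨ x ∈ segment ℝ (cast u) (cast v)} := by
    refine convexHull_min ?_ ?_
    · rintro _ ⟨w, hw, rfl⟩
      rcases hV w hw with h | rfl | rfl
      · left; rw [lin_cast]; exact_mod_cast h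
      · right; exact left_mem_segment _ _ _
      · right; exact right_mem_segment _ _ _
    · rw [convex_iff_forall_pos]
      intro x hx y hy a b ha hb hab
      have e : (idot f u : ℝ) = a * idot f u + b * idot f u := by rw [← add_mul, hab, one_mul]
      rcases hx with hx | hx <;> rcases hy with hy | hy
      · left; simp only [map_add, map_smul, smul_eq_mul]; nlinarith
      · left; simp only [map_add, map_smul, smul_eq_mul, hseg y hy]; nlinarith
      · left; simp only [map_add, map_smul, smul_eq_mul, hseg x hx]; nlinarith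
      · right; exact convex_segment _ _ hx hy ha.le hb.le hab
  intro x hx y hy z hz ⟨a, b, ha, hb, hab, e⟩
  rcases hT hx with h | h
  · exfalso
    have h1 := hseg z hz
    have h2 : lin f y ≤ idot f u := by
      rcases hT hy with h' | h'
      · exact h'.le
      · exact (hseg y h').le
    rw [← e] at h1
    simp only [map_add, map_smul, smul_eq_mul] at h1
    have e : (idot f u : ℝ) = a * idot f u + b * idot f u := by rw [← add_mul, hab, one_mul]
    nlinarith
  · exact h

lemma cone_le (u : M) (f : (Fin 3 → ℝ) →ₗ[ℝ] ℝ) (h : ∀ w ∈ V, 0 ≤ f (cast (w - u))) :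
    ∀ x ∈ cone (poly V) (cast u), 0 ≤ f x := by
  intro x hx
  induction hx using Submodule.span_induction with
  | mem x hx =>
    obtain ⟨v, hv, rfl⟩ := hx
    have := le_of_V (-f) (-f (cast u)) (fun w hw => by
      have h1 := h w hw
      rw [show cast (w - u) = cast w - cast u by ext i; simp [cast], map_sub] at h1
      simp; linarith) v (hv.2.subset (right_mem_segment _ _ _))
    simp at this
    rw [map_sub]; linarith
  | zero => simp
  | add x y _ _ hx hy => rw [map_add]; linarith
  | smul c x _ hx =>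
    rw [show c • x = (c : ℝ) • x from rfl, map_smul]
    exact mul_nonneg c.2 hx

lemma smul_mem_cone (u a : M) (h : Adj (poly V) (cast u) (cast (u + a))) (t : ℝ) (ht : 0 ≤ t) :
    t • cast a ∈ PointedCone.hull ℝ {x | ∃ v, Adj (poly V) (cast u) v ∧ x = v - cast u} :=
  Submodule.smul_mem _ (⟨t, ht⟩ : {c : ℝ // 0 ≤ c})
    (PointedCone.subset_hull ⟨_, h, by rw [cast_add]; simp⟩)

lemma vertexA (u a b c F G H : M) (h : Frame a b c F G H)
    (hV : ∀ w ∈ V, 0 ≤ idot F (w - u) ∧ 0 ≤ idot G (w - u) ∧ 0 ≤ idot H (w - u))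
    (ha : Adj (poly V) (cast u) (cast (u + a))) (hb : Adj (poly V) (cast u) (cast (u + b)))
    (hc : Adj (poly V) (cast u) (cast (u + c))) (z : M) (hz : cast z ∈ cone (poly V) (cast u)) :
    ∃ m : ℕ, IsGreatest (HtSet (cone (poly V) (cast u)) z) m ∧
      IsGreatest (OrdSet (cone (poly V) (cast u)) z) m := by
  refine coneA h _ (fun x => ⟨fun hx => ⟨?_, ?_, ?_⟩, fun ⟨h1, h2, h3⟩ => ?_⟩) z hz
  · exact cone_le u _ (fun w hw => by rw [lin_cast]; exact_mod_cast (hV w hw).1) x hx
  · exact cone_le u _ (fun w hw => by rw [lin_cast]; exact_mod_cast (hV w hw).2.1) x hx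
  · exact cone_le u _ (fun w hw => by rw [lin_cast]; exact_mod_cast (hV w hw).2.2) x hx
  · rw [h.real x]
    exact Submodule.add_mem _ (Submodule.add_mem _ (smul_mem_cone u a ha _ h1)
      (smul_mem_cone u b hb _ h2)) (smul_mem_cone u c hc _ h3)

lemma vertexB (u a b c F G H : M) (h : Frame a b c F G H)
    (hV : ∀ w ∈ V, 0 ≤ idot G (w - u) ∧ 0 ≤ idot H (w - u) ∧
      0 ≤ idot F (w - u) + 4 * idot G (w - u) ∧ 0 ≤ idot F (w - u) + 4 * idot H (w - u))
    (ha : Adj (poly V) (cast u) (cast (u + a))) (hb : Adj (poly V) (cast u) (cast (u + b)))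
    (hc : Adj (poly V) (cast u) (cast (u + c)))
    (hd : Adj (poly V) (cast u) (cast (u + (b + c - 4 • a)))) (z : M)
    (hz : cast z ∈ cone (poly V) (cast u)) :
    ∃ m : ℕ, IsGreatest (HtSet (cone (poly V) (cast u)) z) m ∧
      IsGreatest (OrdSet (cone (poly V) (cast u)) z) m := by
  have hQ : ∀ x, x ∈ cone (poly V) (cast u) ↔ 0 ≤ lin G x ∧ 0 ≤ lin H x ∧
      0 ≤ lin F x + 4 * lin G x ∧ 0 ≤ lin F x + 4 * lin H x := by
    refine fun x => ⟨fun hx => ⟨?_, ?_, ?_, ?_⟩, fun ⟨h1, h2, h3, h4⟩ => ?_⟩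
    · exact cone_le u _ (fun w hw => by rw [lin_cast]; exact_mod_cast (hV w hw).1) x hx
    · exact cone_le u _ (fun w hw => by rw [lin_cast]; exact_mod_cast (hV w hw).2.1) x hx
    · exact cone_le u (lin F + (4 : ℝ) • lin G) (fun w hw => by
        simp only [LinearMap.add_apply, LinearMap.smul_apply, lin_cast, smul_eq_mul]
        exact_mod_cast (hV w hw).2.2.1) x hx
    · exact cone_le u (lin F + (4 : ℝ) • lin H) (fun w hw => by
        simp only [LinearMap.add_apply, LinearMap.smul_apply, lin_cast, smul_eq_mul]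
        exact_mod_cast (hV w hw).2.2.2) x hx
    · rcases le_total (lin H x) (lin G x) with hle | hle
      · have e : x = (lin F x + 4 * lin H x) • cast a + (lin G x - lin H x) • cast b +
            lin H x • cast (b + c - 4 • a) := by
          conv_lhs => rw [h.real x]
          ext i; simp [cast]; ring
        rw [e]
        exact Submodule.add_mem _ (Submodule.add_mem _ (smul_mem_cone u a ha _ h4)
          (smul_mem_cone u b hb _ (sub_nonneg.2 hle))) (smul_mem_cone u _ hd _ h2)
      · have e : x = (lin F x + 4 * lin G x) • cast a + (lin H x - lin G x) • cast c +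
            lin G x • cast (b + c - 4 • a) := by
          conv_lhs => rw [h.real x]
          ext i; simp [cast]; ring
        rw [e]
        exact Submodule.add_mem _ (Submodule.add_mem _ (smul_mem_cone u a ha _ h3)
          (smul_mem_cone u c hc _ (sub_nonneg.2 hle))) (smul_mem_cone u _ hd _ h1)
  rcases le_total (idot H z) (idot G z) with hle | hle
  · exact coneB h _ hQ z hz hle
  · have h' : Frame a c b F H G := by
      obtain ⟨⟨a1, a2, a3⟩, ⟨b1, b2, b3⟩, ⟨c1, c2, c3⟩, e⟩ := h
      exact ⟨⟨a1, a3, a2⟩, ⟨c1, c3, c2⟩, ⟨b1, b3, b2⟩, fun i j => by rw [← e i j]; ring⟩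
    exact coneB h' _ (fun x => by rw [hQ]; tauto) z hz hle

lemma left_extreme (u v : Fin 3 → ℝ) : u ∈ (segment ℝ u v).extremePoints ℝ := by
  rw [← convexHull_pair, (convex_convexHull ℝ _).mem_extremePoints_iff_convex_sdiff,
    convexHull_pair]
  refine ⟨left_mem_segment _ _ _, ?_⟩
  rintro _ ⟨⟨a, b, ha, hb, hab, rfl⟩, hx⟩ _ ⟨⟨c, d, hc, hd, hcd, rfl⟩, hy⟩ s t hs ht hst
  refine ⟨convex_segment u v ⟨a, b, ha, hb, hab, rfl⟩ ⟨c, d, hc, hd, hcd, rfl⟩ hs ht hst, ?_⟩
  intro he
  have hb' : 0 < b := lt_of_le_of_ne hb (fun h => hx (by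
    rw [← h, show a = 1 by linarith]; simp))
  have hd' : 0 < d := lt_of_le_of_ne hd (fun h => hy (by
    rw [← h, show c = 1 by linarith]; simp))
  have hp : 0 < s * b + t * d := by
    rcases eq_or_lt_of_le hs with h | h
    · rw [← h, show t = 1 by linarith]; linarith
    · nlinarith [mul_pos h hb', mul_nonneg ht hd]
  have : v = u := by
    ext i
    have h1 := congrFun (mem_singleton_iff.1 he) i
    simp only [Pi.add_apply, Pi.smul_apply, smul_eq_mul] at h1
    have h2 : (s * b + t * d) * (v i - u i) = 0 := by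
      rw [show a = 1 - b by linarith, show c = 1 - d by linarith, show s = 1 - t by linarith] at h1
      rw [show s = 1 - t by linarith]
      linarith
    rcases mul_eq_zero.1 h2 with h | h
    · linarith
    · linarith
  apply hx
  rw [this, ← add_smul, hab, one_smul]; rfl

theorem result : ∃ (n : ℕ) (W : Finset (Fin n → ℤ)), affineSpan ℝ (poly W) = ⊤ ∧
    (∀ u ∈ (poly W).extremePoints ℝ, ∀ z : Fin n → ℤ, cast z ∈ cone (poly W) u →
      ∃ m : ℕ, IsGreatest (HtSet (cone (poly W) u) z) m ∧
        IsGreatest (OrdSet (cone (poly W) u) z) m) ∧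
    (∀ u v, Adj (poly W) u v → 2 ≤ (latt (segment ℝ u v)).encard) ∧
    ¬ IntegrallyClosed (poly W) := by
  refine ⟨3, V, ?_, ?_, ?_, ?_⟩
  · rw [eq_top_iff]
    intro x _
    have m : ∀ w ∈ V, cast w ∈ affineSpan ℝ (poly V) := fun w hw =>
      subset_affineSpan ℝ _ (mem_poly hw)
    have h0 := m ![0, 0, 0] (by decide)
    have h := AffineSubspace.smul_vsub_vadd_mem _ (x 0) (m ![1, 0, 0] (by decide)) h0
      (AffineSubspace.smul_vsub_vadd_mem _ (x 1) (m ![0, 1, 0] (by decide)) h0
        (AffineSubspace.smul_vsub_vadd_mem _ (x 2) (m ![0, 0, 1] (by decide)) h0 h0))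
    refine (congrArg (· ∈ affineSpan ℝ (poly V)) ?_).mp h
    ext i
    fin_cases i <;> simp [cast]
  · intro u hu z hz
    obtain ⟨w, hw, rfl⟩ := extremePoints_convexHull_subset hu
    simp only [V, Finset.coe_insert, Finset.coe_singleton, mem_insert_iff, mem_singleton_iff] at hw
    rcases hw with rfl | rfl | rfl | rfl | rfl | rfl | rfl | rfl
    · exact vertexA ![0, 0, 0] ![0, 0, 1] ![1, 0, 0] ![0, 1, 0] ![0, 0, 1] ![1, 0, 0] ![0, 1, 0]
        (by decide) (by decide)
        (adj _ _ ![-1, -1, 0] (by decide) (by decide) (by decide) (by decide) (by decide))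
        (adj _ _ ![0, -1, -1] (by decide) (by decide) (by decide) (by decide) (by decide))
        (adj _ _ ![-1, 0, -1] (by decide) (by decide) (by decide) (by decide) (by decide)) z hz
    · exact vertexB ![0, 0, 1] ![0, 0, -1] ![1, 0, 0] ![0, 1, 0] ![0, 0, -1] ![1, 0, 0] ![0, 1, 0]
        (by decide) (by decide)
        (adj _ _ ![-1, -1, 0] (by decide) (by decide) (by decide) (by decide) (by decide))
        (adj _ _ ![0, -5, 1] (by decide) (by decide) (by decide) (by decide) (by decide))
        (adj _ _ ![-5, 0, 1] (by decide) (by decide) (by decide) (by decide) (by decide))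
        (adj _ _ ![-3, -1, 1] (by decide) (by decide) (by decide) (by decide) (by decide)) z hz
    · exact vertexB ![1, 0, 0] ![0, 0, 1] ![-1, 0, 0] ![0, 1, 4] ![0, -4, 1] ![-1, 0, 0] ![0, 1, 0]
        (by decide) (by decide)
        (adj _ _ ![1, -1, 0] (by decide) (by decide) (by decide) (by decide) (by decide))
        (adj _ _ ![0, -1, -1] (by decide) (by decide) (by decide) (by decide) (by decide))
        (adj _ _ ![5, 4, -1] (by decide) (by decide) (by decide) (by decide) (by decide))
        (adj _ _ ![1, 1, -1] (by decide) (by decide) (by decide) (by decide) (by decide)) z hz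
    · exact vertexA ![1, 0, 1] ![0, 0, -1] ![-1, 0, 0] ![0, 1, 4] ![0, 4, -1] ![-1, 0, 0] ![0, 1, 0]
        (by decide) (by decide)
        (adj _ _ ![1, -1, 0] (by decide) (by decide) (by decide) (by decide) (by decide))
        (adj _ _ ![0, -5, 1] (by decide) (by decide) (by decide) (by decide) (by decide))
        (adj _ _ ![1, -4, 1] (by decide) (by decide) (by decide) (by decide) (by decide)) z hz
    · exact vertexB ![0, 1, 0] ![0, 0, 1] ![0, -1, 0] ![1, 0, 4] ![-4, 0, 1] ![0, -1, 0] ![1, 0, 0]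
        (by decide) (by decide)
        (adj _ _ ![-1, 1, 0] (by decide) (by decide) (by decide) (by decide) (by decide))
        (adj _ _ ![-1, 0, -1] (by decide) (by decide) (by decide) (by decide) (by decide))
        (adj _ _ ![4, 5, -1] (by decide) (by decide) (by decide) (by decide) (by decide))
        (adj _ _ ![1, 1, -1] (by decide) (by decide) (by decide) (by decide) (by decide)) z hz
    · exact vertexA ![0, 1, 1] ![0, 0, -1] ![0, -1, 0] ![1, 0, 4] ![4, 0, -1] ![0, -1, 0] ![1, 0, 0]
        (by decide) (by decide)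
        (adj _ _ ![-1, 1, 0] (by decide) (by decide) (by decide) (by decide) (by decide))
        (adj _ _ ![-5, 0, 1] (by decide) (by decide) (by decide) (by decide) (by decide))
        (adj _ _ ![-4, 1, 1] (by decide) (by decide) (by decide) (by decide) (by decide)) z hz
    · exact vertexA ![1, 1, 4] ![0, 0, 1] ![0, -1, -4] ![-1, 0, -4] ![-4, -4, 1] ![0, -1, 0] ![-1, 0, 0]
        (by decide) (by decide)
        (adj _ _ ![1, 1, 0] (by decide) (by decide) (by decide) (by decide) (by decide))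
        (adj _ _ ![5, 4, -1] (by decide) (by decide) (by decide) (by decide) (by decide))
        (adj _ _ ![4, 5, -1] (by decide) (by decide) (by decide) (by decide) (by decide)) z hz
    · exact vertexB ![1, 1, 5] ![0, 0, -1] ![0, -1, -4] ![-1, 0, -4] ![4, 4, -1] ![0, -1, 0] ![-1, 0, 0]
        (by decide) (by decide)
        (adj _ _ ![1, 1, 0] (by decide) (by decide) (by decide) (by decide) (by decide))
        (adj _ _ ![1, -4, 1] (by decide) (by decide) (by decide) (by decide) (by decide))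
        (adj _ _ ![-4, 1, 1] (by decide) (by decide) (by decide) (by decide) (by decide))
        (adj _ _ ![-3, -1, 1] (by decide) (by decide) (by decide) (by decide) (by decide)) z hz
  · intro u v h
    obtain ⟨p, -, rfl⟩ := extremePoints_convexHull_subset
      (h.2.extremePoints_subset_extremePoints (left_extreme u v))
    have h2 := h.2
    rw [segment_symm] at h2
    obtain ⟨q, -, rfl⟩ := extremePoints_convexHull_subset
      (h2.extremePoints_subset_extremePoints (left_extreme v _))
    rw [← encard_pair (show p ≠ q from fun e => h.1 (by rw [e]))]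
    apply encard_le_encard
    rintro _ (rfl | rfl)
    · exact left_mem_segment _ _ _
    · exact right_mem_segment _ _ _
  · intro h
    have h1 := h 1 le_rfl
    have hm : (![1, 1, 3] : M) ∈ latt ((((1 : ℕ) : ℝ) + 1) • poly V) := by
      have c := convex_convexHull ℝ (cast '' (V : Set M))
      have p1 := c (mem_poly (w := ![1, 0, 1]) (by decide)) (mem_poly (w := ![0, 1, 1]) (by decide))
        (a := 1 / 2) (b := 1 / 2) (by norm_num) (by norm_num) (by norm_num)
      have p2 := c (mem_poly (w := ![0, 0, 0]) (by decide)) (mem_poly (w := ![1, 1, 4]) (by decide))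
        (a := 1 / 2) (b := 1 / 2) (by norm_num) (by norm_num) (by norm_num)
      refine ⟨_, c p1 p2 (a := 1 / 2) (b := 1 / 2) (by norm_num) (by norm_num) (by norm_num), ?_⟩
      ext i
      fin_cases i <;> simp [cast] <;> norm_num
    rw [← h1, Nat.cast_one, one_smul] at hm
    obtain ⟨x, hx, y, hy, hxy⟩ := hm
    have key : ∀ (F : M) (m : ℤ), (∀ w ∈ V, idot F w ≤ m) → ∀ t ∈ latt (poly V), idot F t ≤ m := by
      intro F m hF t ht
      have := le_of_V (lin F) m (fun w hw => by rw [lin_cast]; exact_mod_cast hF w hw) _ ht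
      rw [lin_cast] at this
      exact_mod_cast this
    have k1 := key ![-1, 0, 0] 0 (by decide)
    have k2 := key ![0, -1, 0] 0 (by decide)
    have k3 := key ![4, 4, -1] 4 (by decide)
    have k4 := key ![-4, 0, 1] 1 (by decide)
    have k5 := key ![0, -4, 1] 1 (by decide)
    have k6 := key ![0, 0, -1] 0 (by decide)
    have e0 := congrFun hxy 0
    have e1 := congrFun hxy 1
    have e2 := congrFun hxy 2
    have a1 := k1 x hx; have a2 := k2 x hx; have a3 := k3 x hx; have a4 := k4 x hx
    have a5 := k5 x hx; have a6 := k6 x hx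
    have b1 := k1 y hy; have b2 := k2 y hy; have b3 := k3 y hy; have b4 := k4 y hy
    have b5 := k5 y hy; have b6 := k6 y hy
    simp [idot] at a1 a2 a3 a4 a5 a6 b1 b2 b3 b4 b5 b6 e0 e1 e2
    have c0 : y 0 = 0 ∨ y 0 = 1 := by omega
    have c1 : y 1 = 0 ∨ y 1 = 1 := by omega
    rcases c0 with c0 | c0 <;> rcases c1 with c1 | c1 <;> omega

end Pool.Agent.Results.MP_8f98a9_co.Fibration
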